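import Pool.Agent.H91.Tilt.Orth1

/-!
Lifting of polynomials and of separable residues; separability of `p`-power of algebraic elements.
-/

set_option autoImplicit false

namespace Pool.Agent.H91.Tilt

open Pool.Agent.H92.Tilt Polynomial

variable {Ω : Type*} [Field Ω]

section

variable (O' : ValuationSubring Ω)

theorem rs_natCast (n : ℕ) : rs O' (n : Ω) = (n : kap O') := by
  induction n with
  | zero => rw [Nat.cast_zero, Nat.cast_zero, rs_zero']
  | succ k ih => rw [Nat.cast_succ, Nat.cast_succ, rs_add O' (natCast_mem O' k) O'.one_mem, ih,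
      rs_one]

theorem rs_eval {h : Polynomial Ω} {f : Polynomial (kap O')} (hh : ∀ i, h.coeff i ∈ O')
    (hf : ∀ i, rs O' (h.coeff i) = f.coeff i) {b : Ω} (hb : b ∈ O') :
    rs O' (h.eval b) = f.eval (rs O' b) := by
  have h1 : h.natDegree < max h.natDegree f.natDegree + 1 := Nat.lt_succ_of_le (le_max_left _ _)
  have h2 : f.natDegree < max h.natDegree f.natDegree + 1 := Nat.lt_succ_of_le (le_max_right _ _)
  rw [eval_eq_sum_range' h1, eval_eq_sum_range' h2,
    rs_sum O' _ _ fun i _ => mul_mem (hh i) (pow_mem hb i)]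
  refine Finset.sum_congr rfl fun i _ => ?_
  rw [rs_mul O' (hh i) (pow_mem hb i), rs_pow O' hb, hf]

theorem rs_derivative {h : Polynomial Ω} {f : Polynomial (kap O')} (hh : ∀ i, h.coeff i ∈ O')
    (hf : ∀ i, rs O' (h.coeff i) = f.coeff i) (i : ℕ) :
    rs O' (h.derivative.coeff i) = f.derivative.coeff i := by
  rw [coeff_derivative, coeff_derivative]
  have h1 : ((i : Ω) + 1) = ((i + 1 : ℕ) : Ω) := by push_cast; ring
  have h2 : ((i : kap O') + 1) = ((i + 1 : ℕ) : kap O') := by push_cast; ring
  rw [h1, h2, rs_mul O' (hh _) (natCast_mem O' _), hf, rs_natCast]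

/-- Lift of a monic polynomial. -/
theorem exists_poly_lift {F : Subfield Ω} {f : Polynomial (kap O')} (hm : f.Monic)
    (hf : ∀ i, f.coeff i ∈ resL O' F) :
    ∃ h : Polynomial Ω, h.Monic ∧ (∀ i, h.coeff i ∈ F) ∧ (∀ i, h.coeff i ∈ O') ∧
      ∀ i, rs O' (h.coeff i) = f.coeff i := by
  choose a ha haO har using hf
  let h : Polynomial Ω := X ^ f.natDegree + ∑ i ∈ Finset.range f.natDegree, C (a i) * X ^ i
  have hsum : ∀ j, (∑ i ∈ Finset.range f.natDegree, C (a i) * X ^ i).coeff j =
      if j < f.natDegree then a j else 0 := by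
    intro j
    rw [finsetSum_coeff]
    simp only [coeff_C_mul_X_pow]
    by_cases hj : j < f.natDegree
    · rw [if_pos hj, Finset.sum_eq_single j]
      · rw [if_pos rfl]
      · intro b _ hb
        rw [if_neg (Ne.symm hb)]
      · intro hb
        exact absurd (Finset.mem_range.2 hj) hb
    · rw [if_neg hj]
      refine Finset.sum_eq_zero fun i hi => ?_
      rw [if_neg]
      rintro rfl
      exact hj (Finset.mem_range.1 hi)
  have hcoeff : ∀ j, h.coeff j = if j = f.natDegree then 1 else if j < f.natDegree then a j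
      else 0 := by
    intro j
    simp only [h]
    rw [coeff_add, hsum, coeff_X_pow]
    by_cases hj : j = f.natDegree
    · rw [if_pos hj, if_pos hj, if_neg (by omega), add_zero]
    · rw [if_neg hj, if_neg hj, zero_add]
  refine ⟨h, ?_, ?_, ?_, ?_⟩
  · have hdeg : (∑ i ∈ Finset.range f.natDegree, C (a i) * X ^ i).degree <
        (f.natDegree : WithBot ℕ) := by
      refine (degree_lt_iff_coeff_zero _ _).2 fun m hm => ?_
      rw [hsum, if_neg (by exact not_lt.2 hm)]
    exact monic_X_pow_add hdeg
  · intro i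
    rw [hcoeff]
    split_ifs
    · exact F.one_mem
    · exact ha i
    · exact F.zero_mem
  · intro i
    rw [hcoeff]
    split_ifs
    · exact O'.one_mem
    · exact haO i
    · exact O'.zero_mem
  · intro i
    rw [hcoeff]
    split_ifs with h1 h2
    · rw [rs_one, h1]
      exact hm.coeff_natDegree.symm
    · exact har i
    · rw [rs_zero', coeff_eq_zero_of_natDegree_lt (by omega)]

/-- A separable residue of an h-closed field lifts to a simple root in that field. -/
theorem lift_sep [IsAlgClosed Ω] {F N : Subfield Ω} (hFN : F ≤ N) (hN : HCl O' N) {y : kap O'}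
    (hy : y ∈ resL O' N) (hs : IsSeparable (resL O' F) y) :
    ∃ c ∈ N, SRoot O' F c ∧ rs O' c = y := by
  obtain ⟨b, hbN, hbO, rfl⟩ := hy
  set f0 := minpoly (resL O' F) (rs O' b) with hf0
  have hint : IsIntegral (resL O' F) (rs O' b) := hs.isIntegral
  have hmon0 : f0.Monic := minpoly.monic hint
  let f : Polynomial (kap O') := f0.map (algebraMap (resL O' F) (kap O'))
  have hfm : f.Monic := hmon0.map _
  have hfc : ∀ i, f.coeff i ∈ resL O' F := by
    intro i
    simp only [f]
    rw [coeff_map]
    exact (f0.coeff i).2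
  obtain ⟨h, hm, h1, h2, h3⟩ := exists_poly_lift O' hfm hfc
  have hev : f.eval (rs O' b) = 0 := by
    simp only [f]
    rw [eval_map_algebraMap]
    exact minpoly.aeval _ _
  have hev' : f.derivative.eval (rs O' b) ≠ 0 := by
    simp only [f]
    rw [derivative_map, eval_map_algebraMap]
    exact (show f0.Separable from hs).aeval_derivative_ne_zero (minpoly.aeval _ _)
  have e1 : O'.valuation (h.eval b) < 1 := by
    rw [← rs_eq_zero O' (eval_memO O' h2 hbO), rs_eval O' h2 h3 hbO, hev]
  have h2' := derivative_coeff_memO O' h2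
  have e2 : O'.valuation (h.derivative.eval b) = 1 := by
    refine val_one_of_rs_ne O' (eval_memO O' h2' hbO) ?_
    rw [rs_eval O' h2' (fun i => rs_derivative O' h2 h3 i) hbO]
    exact hev'
  obtain ⟨c, hcN, -, hcb, hcs⟩ := hN.hensel hFN hm h1 h2 hbN hbO e1 e2
  exact ⟨c, hcN, hcs, rs_eq_of_lt O' hbO hcb⟩

end

/-- Some `p`-power of an algebraic element is separable. -/
theorem exists_sep_pow (p : ℕ) [hp : Fact p.Prime] {κ : Type*} [Field κ] [CharP κ p]
    {E : Subfield κ} {y : κ} (hy : IsAlgebraic E y) : ∃ k : ℕ, IsSeparable E (y ^ p ^ k) := by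
  have hE : ExpChar E p := .prime hp.out
  obtain ⟨g, hg, m, hm⟩ := (minpoly.irreducible hy.isIntegral).hasSeparableContraction p
  refine ⟨m, ?_⟩
  have h1 : aeval (y ^ p ^ m) g = 0 := by
    rw [← expand_aeval, hm, minpoly.aeval]
  exact hg.of_dvd (minpoly.dvd _ _ h1)

theorem pcl_iter {κ : Type*} [Field κ] {p : ℕ} {L : Subfield κ} (hL : PCl p L) (k : ℕ) {x : κ}
    (hx : x ^ p ^ k ∈ L) : x ∈ L := by
  induction k with
  | zero => simpa using hx
  | succ k ih =>
    apply ih
    apply hL
    rwa [← pow_mul, ← pow_succ]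

end Pool.Agent.H91.Tilt
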