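import Pool.Agent.H91.Tilt.Trans

/-!
Orthogonality for one residually `p`-independent unit, and subfields maximal with respect to a
bound on the residue field.
-/

set_option autoImplicit false

namespace Pool.Agent.H91.Tilt

open Pool.Agent.H92.Tilt Polynomial

variable {Ω : Type*} [Field Ω]

section rs

variable (O' : ValuationSubring Ω)

theorem rs_zero' : rs O' (0 : Ω) = 0 := (rs_eq_zero O' O'.zero_mem).2 (by simp)

theorem rs_pow {x : Ω} (hx : x ∈ O') (n : ℕ) : rs O' (x ^ n) = rs O' x ^ n := by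
  induction n with
  | zero => rw [pow_zero, pow_zero, rs_one]
  | succ k ih => rw [pow_succ, pow_succ, rs_mul O' (pow_mem hx k) hx, ih]

theorem rs_sum {ι : Type*} (s : Finset ι) (f : ι → Ω) (hf : ∀ i ∈ s, f i ∈ O') :
    rs O' (∑ i ∈ s, f i) = ∑ i ∈ s, rs O' (f i) := by
  classical
  induction s using Finset.induction_on with
  | empty => rw [Finset.sum_empty, Finset.sum_empty, rs_zero']
  | insert a s ha ih =>
    rw [Finset.sum_insert ha, Finset.sum_insert ha,
      rs_add O' (hf a (Finset.mem_insert_self _ _))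
        (sum_mem fun i hi => hf i (Finset.mem_insert_of_mem hi)),
      ih fun i hi => hf i (Finset.mem_insert_of_mem hi)]

theorem rs_eq_iff {x y : Ω} (hx : x ∈ O') (hy : y ∈ O') :
    rs O' x = rs O' y ↔ O'.valuation (x - y) < 1 := by
  rw [← rs_eq_zero O' (sub_mem hx hy), rs_sub O' hx hy, sub_eq_zero]

theorem rs_eq_of_lt {x y : Ω} (hy : y ∈ O') (h : O'.valuation (x - y) < 1) :
    rs O' x = rs O' y := by
  have hx : x ∈ O' := by
    have h1 : x - y ∈ O' := val_lt_one_memO h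
    have h2 := O'.add_mem _ _ h1 hy
    rwa [sub_add_cancel] at h2
  exact (rs_eq_iff O' hx hy).2 h

theorem resL_mono {L L' : Subfield Ω} (h : L ≤ L') : resL O' L ≤ resL O' L' := by
  rintro y ⟨x, hx, hxO, rfl⟩
  exact ⟨x, h hx, hxO, rfl⟩

theorem val_one_of_rs_ne {x : Ω} (hx : x ∈ O') (h : rs O' x ≠ 0) : O'.valuation x = 1 := by
  have h1 : ¬ O'.valuation x < 1 := fun hc => h ((rs_eq_zero O' hx).2 hc)
  exact le_antisymm ((O'.valuation_le_one_iff x).2 hx) (not_lt.1 h1)

end rs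

theorem orth_one (p : ℕ) [hp : Fact p.Prime] [CharP Ω p] [IsAlgClosed Ω]
    {O' : ValuationSubring Ω} {E : Subfield Ω} {z : Ω} (hzE : z ∈ E) (hzO : z ∈ O')
    (hz : ∀ x ∈ resL O' E, x ^ p ≠ rs O' z) : Orth p O' E (fun _ : Fin 1 => z) := by
  classical
  have hchar : CharP (kap O') p := kap_charP O' p
  have hz0 : rs O' z ≠ 0 := by
    intro hc
    refine hz 0 (zero_mem _) ?_
    rw [hc, zero_pow hp.out.ne_zero]
  have hz1 : O'.valuation z = 1 := val_one_of_rs_ne O' hzO hz0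
  have hmon : ∀ α : Fin 1 → Fin p, mon (fun _ : Fin 1 => z) α = z ^ (α 0 : ℕ) := by
    intro α
    simp [mon]
  have hmon1 : ∀ α : Fin 1 → Fin p, O'.valuation (mon (fun _ : Fin 1 => z) α) = 1 := by
    intro α
    rw [hmon, map_pow, hz1, one_pow]
  intro u hu α
  rw [map_mul, hmon1, mul_one, map_pow]
  obtain ⟨β, -, hβ⟩ := Finset.exists_max_image (Finset.univ : Finset (Fin 1 → Fin p))
    (fun α => O'.valuation (u α)) ⟨α, Finset.mem_univ α⟩
  have hβ' : ∀ α, O'.valuation (u α) ≤ O'.valuation (u β) := fun α => hβ α (Finset.mem_univ α)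
  by_cases hβ0 : u β = 0
  · have h1 : u α = 0 := by
      have h2 := hβ' α
      rw [hβ0, map_zero] at h2
      exact (Valuation.zero_iff _).1 (le_antisymm h2 zero_le)
    rw [h1, map_zero, zero_pow hp.out.ne_zero]
    exact zero_le
  have hvβ : O'.valuation (u β) ≠ 0 := (Valuation.ne_zero_iff _).2 hβ0
  let w : (Fin 1 → Fin p) → Ω := fun α => u α / u β
  have hwE : ∀ α, w α ∈ E := fun α => div_mem (hu α) (hu β)
  have hwO : ∀ α, w α ∈ O' := by
    intro α
    refine (O'.valuation_le_one_iff _).1 ?_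
    rw [map_div₀]
    exact (div_le_one₀ (zero_lt_iff.2 hvβ)).2 (hβ' α)
  have hwβ : w β = 1 := div_self hβ0
  have hps : psum (fun _ : Fin 1 => z) u = u β ^ p * psum (fun _ : Fin 1 => z) w := by
    unfold psum
    rw [Finset.mul_sum]
    refine Finset.sum_congr rfl fun α _ => ?_
    have : u α = u β * w α := by
      simp only [w]
      field_simp
    rw [this]
    ring
  have hge : 1 ≤ O'.valuation (psum (fun _ : Fin 1 => z) w) := by
    by_contra hlt
    rw [not_le] at hlt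
    have hmem : ∀ α ∈ (Finset.univ : Finset (Fin 1 → Fin p)),
        w α ^ p * mon (fun _ : Fin 1 => z) α ∈ O' := by
      intro α _
      rw [hmon]
      exact mul_mem (pow_mem (hwO α) _) (pow_mem hzO _)
    have h1 : rs O' (psum (fun _ : Fin 1 => z) w) = 0 :=
      (rs_eq_zero O' (sum_mem hmem)).2 hlt
    unfold psum at h1
    rw [rs_sum O' _ _ hmem] at h1
    have h2 : ∑ i : Fin p, rs O' (w (fun _ => i)) ^ p * rs O' z ^ (i : ℕ) = 0 := by
      rw [← h1]
      symm
      refine Fintype.sum_equiv (Equiv.funUnique (Fin 1) (Fin p)) _ _ fun α => ?_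
      rw [hmon, rs_mul O' (pow_mem (hwO α) _) (pow_mem hzO _), rs_pow O' (hwO α), rs_pow O' hzO]
      have h3 : (fun _ => (Equiv.funUnique (Fin 1) (Fin p)) α) = α := by
        funext i
        rw [Subsingleton.elim i default]
        rfl
      rw [h3]
      rfl
    have h4 := pow_indep p (E := resL O' E) (y := rs O' z) ⟨z, hzE, hzO, rfl⟩ hz
      (fun i => rs O' (w (fun _ => i))) (fun i => ⟨_, hwE _, hwO _, rfl⟩) h2 (β 0)
    have h5 : (fun _ : Fin 1 => β 0) = β := by
      funext i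
      rw [Subsingleton.elim i 0]
    simp only [h5, hwβ, rs_one] at h4
    exact one_ne_zero h4
  rw [hps, map_mul, map_pow]
  calc O'.valuation (u α) ^ p ≤ O'.valuation (u β) ^ p := pow_le_pow_left' (hβ' α) p
    _ = O'.valuation (u β) ^ p * 1 := (mul_one _).symm
    _ ≤ _ := mul_le_mul_right hge _

/-- A subfield between `E` and `N` that is maximal among those whose residue field is in `R`. -/
theorem exists_max_field {O' : ValuationSubring Ω} {E N : Subfield Ω} (hEN : E ≤ N)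
    {R : Subfield (kap O')} (hR : resL O' E ≤ R) :
    ∃ M : Subfield Ω, E ≤ M ∧ M ≤ N ∧ resL O' M ≤ R ∧
      ∀ L : Subfield Ω, M ≤ L → L ≤ N → resL O' L ≤ R → L ≤ M := by
  obtain ⟨M, hEM, hM⟩ := zorn_le_nonempty₀ {L : Subfield Ω | E ≤ L ∧ L ≤ N ∧ resL O' L ≤ R}
    (by
      intro c hc hchain y hy
      have hne : c.Nonempty := ⟨y, hy⟩
      refine ⟨sSup c, ⟨(hc hy).1.trans (le_sSup hy), sSup_le fun L hL => (hc hL).2.1, ?_⟩,
        fun L hL => le_sSup hL⟩
      rintro t ⟨x, hx, hxO, rfl⟩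
      obtain ⟨L, hL, hxL⟩ :=
        (Subfield.mem_sSup_of_directedOn hne hchain.directedOn).1 hx
      exact (hc hL).2.2 ⟨x, hxL, hxO, rfl⟩)
    E ⟨le_rfl, hEN, hR⟩
  exact ⟨M, hM.prop.1, hM.prop.2.1, hM.prop.2.2, fun L hML hLN hLR =>
    hM.le_of_ge ⟨hM.prop.1.trans hML, hLN, hLR⟩ hML⟩

/-- The maximal field is perfect. -/
theorem max_pcl (p : ℕ) [hp : Fact p.Prime] [CharP Ω p] [IsAlgClosed Ω]
    {O' : ValuationSubring Ω} {M N : Subfield Ω}
    (hMN : M ≤ N) (hN : PCl p N) {R : Subfield (kap O')} (hR : PCl p R) (hMR : resL O' M ≤ R)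
    (hmax : ∀ L : Subfield Ω, M ≤ L → L ≤ N → resL O' L ≤ R → L ≤ M) : PCl p M := by
  intro x hx
  have hchar : ExpChar Ω p := .prime hp.out
  let L : Subfield Ω := N ⊓ M.comap (frobenius Ω p)
  have hmem : ∀ y, y ∈ L ↔ y ∈ N ∧ y ^ p ∈ M := fun y => Iff.rfl
  refine hmax L (fun y hy => (hmem y).2 ⟨hMN hy, pow_mem hy p⟩) (fun y hy => ((hmem y).1 hy).1) ?_
    ((hmem x).2 ⟨hN x (hMN hx), hx⟩)
  rintro t ⟨y, hy, hyO, rfl⟩
  refine hR _ ?_
  rw [← rs_pow O' hyO]
  exact hMR ⟨y ^ p, ((hmem y).1 hy).2, pow_mem hyO p, rfl⟩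

/-- The maximal field is h-closed. -/
theorem max_hcl (p : ℕ) [Fact p.Prime] [CharP Ω p] [IsAlgClosed Ω]
    {O' : ValuationSubring Ω} {M N : Subfield Ω}
    (hMN : M ≤ N) (hN : HCl O' N) {R : Subfield (kap O')} (hMR : resL O' M ≤ R)
    (hmax : ∀ L : Subfield Ω, M ≤ L → L ≤ N → resL O' L ≤ R → L ≤ M) : HCl O' M := by
  intro c a hc ha hca
  have hcN : c ∈ N := hN c a (hc.mono hMN) (hMN ha) hca
  refine hmax (adj M {c}) (le_adj _ _) (adj_le hMN (Set.singleton_subset_iff.2 hcN)) ?_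
    (subset_adj M {c} (Set.mem_singleton c))
  rw [resL_adj_sroot O' hc]
  refine adj_le hMR (Set.singleton_subset_iff.2 ?_)
  have haO : a ∈ O' := by
    have h1 := O'.sub_mem hc.memO (val_lt_one_memO hca)
    rwa [sub_sub_cancel] at h1
  rw [rs_eq_of_lt O' haO hca]
  exact hMR ⟨a, ha, haO, rfl⟩

end Pool.Agent.H91.Tilt
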