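import Pool.Agent.H92.Tilt.Res

/-!
Overrings of a valuation ring: comparison of values, adjacent overrings, the rank one property
of the ring induced in the residue field of the larger of two adjacent overrings.
-/

set_option autoImplicit false

namespace Pool.Agent.H91.Tilt

open Pool.Agent.H92.Tilt

variable {Ω : Type*} [Field Ω]

theorem coarse_le {O O' : ValuationSubring Ω} (h : O ≤ O') {x y : Ω}
    (hxy : O.valuation x ≤ O.valuation y) : O'.valuation x ≤ O'.valuation y := by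
  rw [ValuationSubring.valuation_le_iff] at hxy ⊢
  obtain ⟨a, ha⟩ := hxy
  exact ⟨⟨a, h a.2⟩, ha⟩

theorem coarse_eq {O O' : ValuationSubring Ω} (h : O ≤ O') {x y : Ω}
    (hxy : O.valuation x = O.valuation y) : O'.valuation x = O'.valuation y :=
  le_antisymm (coarse_le h hxy.le) (coarse_le h hxy.ge)

theorem fine_lt {O O' : ValuationSubring Ω} (h : O ≤ O') {x y : Ω}
    (hxy : O'.valuation x < O'.valuation y) : O.valuation x < O.valuation y := by
  by_contra hc
  exact absurd (coarse_le h (not_lt.1 hc)) (not_le.2 hxy)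

theorem fine_lt_one {O O' : ValuationSubring Ω} (h : O ≤ O') {x : Ω}
    (hx : O'.valuation x < 1) : O.valuation x < 1 := by
  have h1 := @fine_lt _ _ O O' h x 1 (by simpa using hx)
  simpa using h1

theorem val_lt_one_memO {O : ValuationSubring Ω} {x : Ω} (hx : O.valuation x < 1) : x ∈ O :=
  (O.valuation_le_one_iff x).1 hx.le

theorem over_total {O O1 O2 : ValuationSubring Ω} (h1 : O ≤ O1) (h2 : O ≤ O2) :
    O1 ≤ O2 ∨ O2 ≤ O1 := by
  let _ := O.linearOrderOverring
  have := le_total (⟨O1, h1⟩ : {S // O ≤ S}) ⟨O2, h2⟩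
  exact this

/-- Adjacent overrings at the jump of an upward closed property. -/
theorem exists_adjacent (O : ValuationSubring Ω)
    (hfin : {O1 : ValuationSubring Ω | O ≤ O1}.Finite) (U : ValuationSubring Ω → Prop)
    (hU : ∀ O1 O2 : ValuationSubring Ω, O ≤ O1 → O1 ≤ O2 → U O1 → U O2) (htop : U ⊤)
    (hO : ¬ U O) :
    ∃ O1 O2 : ValuationSubring Ω, O ≤ O1 ∧ O1 ≤ O2 ∧ ¬ U O1 ∧ U O2 ∧
      ∀ R : ValuationSubring Ω, O1 ≤ R → R ≤ O2 → R = O1 ∨ R = O2 := by
  have hf1 : {O1 : ValuationSubring Ω | O ≤ O1 ∧ ¬ U O1}.Finite :=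
    hfin.subset fun x hx => hx.1
  have hf2 : {O1 : ValuationSubring Ω | O ≤ O1 ∧ U O1}.Finite :=
    hfin.subset fun x hx => hx.1
  obtain ⟨O1, h1⟩ := hf1.exists_maximal ⟨O, le_rfl, hO⟩
  obtain ⟨O2, h2⟩ := hf2.exists_minimal ⟨⊤, le_top, htop⟩
  have h12 : O1 ≤ O2 := by
    rcases over_total h1.prop.1 h2.prop.1 with h | h
    · exact h
    · exact absurd (hU _ _ h2.prop.1 h h2.prop.2) h1.prop.2
  refine ⟨O1, O2, h1.prop.1, h12, h1.prop.2, h2.prop.2, fun R hR1 hR2 => ?_⟩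
  by_cases hR : U R
  · right
    exact le_antisymm hR2 (h2.le_of_le ⟨h1.prop.1.trans hR1, hR⟩ hR2)
  · left
    exact le_antisymm (h1.le_of_ge ⟨h1.prop.1.trans hR1, hR⟩ hR1) hR1

/-- The overring `O[1/x]` for `x ∈ O`. -/
def loc (O : ValuationSubring Ω) (x : Ω) (hx : x ∈ O) : ValuationSubring Ω :=
  ValuationSubring.ofLE O
    { carrier := {w | ∃ n : ℕ, w * x ^ n ∈ O}
      mul_mem' := by
        rintro a b ⟨n, hn⟩ ⟨m, hm⟩
        refine ⟨n + m, ?_⟩
        have : a * b * x ^ (n + m) = (a * x ^ n) * (b * x ^ m) := by ring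
        rw [this]
        exact O.mul_mem _ _ hn hm
      one_mem' := ⟨0, by simpa using O.one_mem⟩
      add_mem' := by
        rintro a b ⟨n, hn⟩ ⟨m, hm⟩
        refine ⟨n + m, ?_⟩
        have : (a + b) * x ^ (n + m) = (a * x ^ n) * x ^ m + (b * x ^ m) * x ^ n := by ring
        rw [this]
        exact O.add_mem _ _ (O.mul_mem _ _ hn (pow_mem hx m)) (O.mul_mem _ _ hm (pow_mem hx n))
      zero_mem' := ⟨0, by simpa using O.zero_mem⟩
      neg_mem' := by
        rintro a ⟨n, hn⟩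
        refine ⟨n, ?_⟩
        rw [neg_mul]
        exact O.neg_mem _ hn }
    (fun w hw => ⟨0, by rw [pow_zero, mul_one]; exact hw⟩)

theorem mem_loc (O : ValuationSubring Ω) (x : Ω) (hx : x ∈ O) (w : Ω) :
    w ∈ loc O x hx ↔ ∃ n : ℕ, w * x ^ n ∈ O := Iff.rfl

theorem le_loc (O : ValuationSubring Ω) (x : Ω) (hx : x ∈ O) : O ≤ loc O x hx :=
  fun w hw => ⟨0, by simp [hw]⟩

/-- The ring induced in the residue field of the larger of two adjacent rings has rank one. -/
theorem arch_of_adjacent {O1 O2 : ValuationSubring Ω} (h : O1 ≤ O2)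
    (hadj : ∀ R : ValuationSubring Ω, O1 ≤ R → R ≤ O2 → R = O1 ∨ R = O2) :
    Arch (resO O2 O1 h) := by
  intro x y hx hy
  by_cases hx0 : x = 0
  · refine ⟨1, ?_⟩
    rw [hx0, pow_one, map_zero]
    exact zero_lt_iff.2 ((Valuation.ne_zero_iff _).2 hy)
  obtain ⟨x0, hx0O, rfl⟩ := rs_surj O2 x
  obtain ⟨y0, hy0O, rfl⟩ := rs_surj O2 y
  have hx1 : O1.valuation x0 < 1 := (resO_val_lt O2 h hx0O).1 hx
  have hxO1 : x0 ∈ O1 := val_lt_one_memO hx1
  have hx0u : O2.valuation x0 = 1 := by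
    have h1 : ¬ O2.valuation x0 < 1 := fun hc => hx0 ((rs_eq_zero O2 hx0O).2 hc)
    exact le_antisymm ((O2.valuation_le_one_iff x0).2 hx0O) (not_lt.1 h1)
  have hy0u : O2.valuation y0 = 1 := by
    have h1 : ¬ O2.valuation y0 < 1 := fun hc => hy ((rs_eq_zero O2 hy0O).2 hc)
    exact le_antisymm ((O2.valuation_le_one_iff y0).2 hy0O) (not_lt.1 h1)
  have hx0ne : x0 ≠ 0 := by
    rintro rfl
    simp at hx0u
  have hy0ne : y0 ≠ 0 := by
    rintro rfl
    simp at hy0u
  -- the localization is the larger ring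
  have hle : loc O1 x0 hxO1 ≤ O2 := by
    rintro w ⟨n, hn⟩
    have h1 := (O2.valuation_le_one_iff _).2 (h hn)
    rw [map_mul, map_pow, hx0u, one_pow, mul_one] at h1
    exact (O2.valuation_le_one_iff _).1 h1
  have hne : loc O1 x0 hxO1 ≠ O1 := by
    intro hc
    have h1 : x0⁻¹ ∈ loc O1 x0 hxO1 := ⟨1, by
      rw [pow_one, inv_mul_cancel₀ hx0ne]
      exact O1.one_mem⟩
    rw [hc] at h1
    have h2 := (O1.valuation_le_one_iff _).2 h1
    rw [map_inv₀] at h2
    have h3 : O1.valuation x0 ≠ 0 := (Valuation.ne_zero_iff _).2 hx0ne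
    have h4 : (1 : O1.ValueGroup) < (O1.valuation x0)⁻¹ :=
      (one_lt_inv₀ (zero_lt_iff.2 h3)).2 hx1
    exact absurd h2 (not_le.2 h4)
  have heq : loc O1 x0 hxO1 = O2 := (hadj _ (le_loc _ _ _) hle).resolve_left hne
  have hyi : y0⁻¹ ∈ loc O1 x0 hxO1 := by
    rw [heq]
    refine (O2.valuation_le_one_iff _).1 ?_
    rw [map_inv₀, hy0u, inv_one]
  obtain ⟨n, hn⟩ := hyi
  refine ⟨n + 1, ?_⟩
  have hv : O1.valuation (x0 ^ n) ≤ O1.valuation y0 := by
    rw [ValuationSubring.valuation_le_iff]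
    refine ⟨⟨_, hn⟩, ?_⟩
    simp only
    field_simp
  have hpow : rs O2 x0 ^ (n + 1) = rs O2 (x0 ^ (n + 1)) := by
    clear hn hv
    induction n with
    | zero => simp
    | succ k ih =>
      rw [pow_succ, ih, ← rs_mul O2 (pow_mem hx0O _) hx0O, ← pow_succ]
  rw [hpow]
  have hpu : O2.valuation (x0 ^ (n + 1)) = 1 := by rw [map_pow, hx0u, one_pow]
  by_contra hcon
  rw [not_lt, resO_val_le O2 h hy0O (pow_mem hx0O _) hy ?_] at hcon
  · rw [pow_succ, map_mul] at hcon
    have h5 : O1.valuation (x0 ^ n) * O1.valuation x0 < O1.valuation (x0 ^ n) := by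
      have h6 : O1.valuation (x0 ^ n) ≠ 0 := (Valuation.ne_zero_iff _).2 (pow_ne_zero _ hx0ne)
      calc O1.valuation (x0 ^ n) * O1.valuation x0 < O1.valuation (x0 ^ n) * 1 :=
            mul_lt_mul_of_pos_left hx1 (zero_lt_iff.2 h6)
        _ = _ := mul_one _
    exact absurd (hcon.trans_lt h5) (not_lt.2 hv)
  · intro hc
    have := (rs_eq_zero O2 (pow_mem hx0O (n + 1))).1 hc
    rw [hpu] at this
    exact lt_irrefl _ this

end Pool.Agent.H91.Tilt
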