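import Pool.Agent.H91.Tilt.Over

/-!
Transcendence degree one: exchange, iterated `p`-th roots of a transcendental element in a
finitely generated field, and orthogonality for one residually `p`-independent unit.
-/

set_option autoImplicit false

namespace Pool.Agent.H91.Tilt

open Pool.Agent.H92.Tilt Polynomial

variable {Ω : Type*} [Field Ω]

theorem alg_adj_iff (B : Subfield Ω) (S : Set Ω) (x : Ω) :
    IsAlgebraic (adj B S) x ↔ IsAlgebraic (IntermediateField.adjoin B S) x := by
  rw [← adjoin_eq_adj]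
  rfl

/-- Exchange. -/
theorem exchange {B : Subfield Ω} {x z : Ω} (hx : ¬ IsAlgebraic B x)
    (hz : ¬ IsAlgebraic B z) (h : IsAlgebraic (adj B {z}) x) : IsAlgebraic (adj B {x}) z := by
  rw [alg_adj_iff, IntermediateField.isAlgebraic_adjoin_iff] at h ⊢
  exact IsAlgebraic.adjoin_singleton hz hx h

theorem tr1_alg {B B' : Subfield Ω} (htr : Tr1 B B') {x : Ω} (hx : x ∈ B')
    (hxt : ¬ IsAlgebraic B x) {y : Ω} (hy : y ∈ B') : IsAlgebraic (adj B {x}) y := by
  obtain ⟨z, hzB, hz, hz'⟩ := htr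
  have h1 : IsAlgebraic (adj B {x}) z := exchange hxt hz (hz' x hx)
  refine isAlgebraic_trans (F := adj (adj B {x}) {z}) (fun w hw => ?_)
    (isAlgebraic_mono (adj_mono (le_adj _ _) (Set.Subset.refl _)) (hz' y hy))
  refine isAlgebraic_adj (fun v hv => ?_) hw
  rw [Set.mem_singleton_iff.1 hv]
  exact h1

/-- A transcendental element `w` is not a `p`-th power in `B(w)`. -/
theorem trans_not_pow (p : ℕ) [hp : Fact p.Prime] {B : Subfield Ω} {w : Ω}
    (hw : ¬ IsAlgebraic B w) {y : Ω} (hy : y ∈ adj B {w}) : y ^ p ≠ w := by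
  intro hyw
  rw [← mem_adjoin_iff, IntermediateField.mem_adjoin_simple_iff] at hy
  obtain ⟨r, s, rfl⟩ := hy
  have hs : aeval w s ≠ 0 := by
    intro hc
    rw [hc, div_zero, zero_pow hp.out.ne_zero] at hyw
    exact hw (hyw ▸ isAlgebraic_zero)
  have htr : Transcendental B w := hw
  have h1 : aeval w (r ^ p) = aeval w (X * s ^ p) := by
    rw [map_pow, map_mul, map_pow, aeval_X]
    rw [div_pow] at hyw
    have h2 : (aeval w s) ^ p ≠ 0 := pow_ne_zero _ hs
    rw [div_eq_iff h2] at hyw
    exact hyw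
  have h2 : r ^ p = X * s ^ p := by
    have h3 := (transcendental_iff_injective.1 htr) h1
    exact h3
  have hs0 : s ≠ 0 := by
    rintro rfl
    simp at hs
  have h3 := congrArg natDegree h2
  rw [natDegree_pow, natDegree_mul X_ne_zero (pow_ne_zero _ hs0), natDegree_X, natDegree_pow] at h3
  have h4 : p ∣ 1 := by
    have h5 : p ∣ 1 + p * s.natDegree := h3 ▸ Dvd.intro _ rfl
    exact (Nat.dvd_add_iff_left (Dvd.intro _ rfl)).2 h5
  exact hp.out.one_lt.ne' (Nat.dvd_one.1 h4)

/-- In a finite extension of `B(w)`, `w` transcendental, not all iterated `p`-th roots exist. -/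
theorem exists_root_level (p : ℕ) [hp : Fact p.Prime] {B : Subfield Ω} {w : Ω}
    (hw : ¬ IsAlgebraic B w) (T : Finset Ω) (hT : ∀ t ∈ T, IsAlgebraic (adj B {w}) t) :
    ∃ m : ℕ, ∃ y ∈ adj (adj B {w}) (T : Set Ω), y ^ p ^ m = w ∧
      ∀ x ∈ adj (adj B {w}) (T : Set Ω), x ^ p ≠ y := by
  classical
  by_contra hcon
  push Not at hcon
  set E : Subfield Ω := adj (adj B {w}) (T : Set Ω) with hE
  have hwE : w ∈ E := le_adj _ _ (subset_adj B {w} (Set.mem_singleton w))
  -- a sequence of roots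
  have hseq : ∃ f : ℕ → Ω, (∀ m, f m ∈ E ∧ f m ^ p ^ m = w) ∧ ∀ m, f (m + 1) ^ p = f m := by
    have hstep : ∀ m (y : {y : Ω // y ∈ E ∧ y ^ p ^ m = w}),
        ∃ x : {y : Ω // y ∈ E ∧ y ^ p ^ (m + 1) = w}, (x : Ω) ^ p = y := by
      rintro m ⟨y, hyE, hy⟩
      obtain ⟨x, hxE, hx⟩ := hcon m y hyE hy
      refine ⟨⟨x, hxE, ?_⟩, hx⟩
      rw [pow_succ', pow_mul, hx, hy]
    choose g hg using hstep
    let F : (m : ℕ) → {y : Ω // y ∈ E ∧ y ^ p ^ m = w} := fun m =>
      Nat.rec ⟨w, hwE, by simp⟩ (fun m y => g m y) m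
    refine ⟨fun m => (F m).1, fun m => (F m).2, fun m => ?_⟩
    exact hg m (F m)
  obtain ⟨f, hf, hfs⟩ := hseq
  have hftr : ∀ m, ¬ IsAlgebraic B (f m) := by
    intro m hm
    apply hw
    rw [← (hf m).2]
    exact hm.pow _
  let K0 : Subfield Ω := adj B {w}
  let N : ℕ → IntermediateField K0 Ω := fun m => IntermediateField.adjoin K0 {f m}
  have hNmem : ∀ m x, x ∈ N m ↔ x ∈ adj K0 {f m} := fun m x => mem_adjoin_iff _ _ _
  have hNadj : ∀ m, adj K0 {f m} = adj B {f m} := by
    intro m
    apply le_antisymm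
    · refine adj_le (adj_le (le_adj _ _) ?_) (subset_adj _ _)
      rintro x hx
      rw [Set.mem_singleton_iff.1 hx, ← (hf m).2]
      exact pow_mem (subset_adj _ _ (Set.mem_singleton _)) _
    · exact adj_mono (le_adj _ _) (Set.Subset.refl _)
  have hNlt : ∀ m, N m < N (m + 1) := by
    intro m
    refine lt_of_le_of_ne ?_ ?_
    · refine IntermediateField.adjoin_le_iff.2 ?_
      rintro x hx
      rw [Set.mem_singleton_iff.1 hx, ← hfs m]
      exact pow_mem (IntermediateField.mem_adjoin_simple_self K0 (f (m + 1))) p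
    · intro heq
      have h1 : f (m + 1) ∈ N m := by
        rw [heq]
        exact IntermediateField.mem_adjoin_simple_self K0 (f (m + 1))
      rw [hNmem, hNadj] at h1
      exact trans_not_pow p (hftr m) h1 (hfs m)
  let F : IntermediateField K0 Ω := IntermediateField.adjoin K0 (T : Set Ω)
  have hNF : ∀ m, N m ≤ F := by
    intro m
    refine IntermediateField.adjoin_le_iff.2 ?_
    rintro x hx
    rw [Set.mem_singleton_iff.1 hx]
    exact (mem_adjoin_iff _ _ _).2 (hf m).1
  have hFfin : FiniteDimensional K0 F :=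
    IntermediateField.finiteDimensional_adjoin fun x hx =>
      isAlgebraic_iff_isIntegral.1 (hT x hx)
  have hFfin' : FiniteDimensional K0 F.toSubmodule := hFfin
  have hle : ∀ m, m ≤ Module.finrank K0 (N m).toSubmodule := by
    intro m
    induction m with
    | zero => exact Nat.zero_le _
    | succ k ih =>
      have : FiniteDimensional K0 (N (k + 1)).toSubmodule :=
        Submodule.finiteDimensional_of_le (show (N (k + 1)).toSubmodule ≤ F.toSubmodule from hNF _)
      have hlt : (N k).toSubmodule < (N (k + 1)).toSubmodule := hNlt k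
      exact Nat.succ_le_of_lt (lt_of_le_of_lt ih (Submodule.finrank_lt_finrank_of_lt hlt))
  have h1 := hle (Module.finrank K0 F.toSubmodule + 1)
  have h2 : Module.finrank K0 (N (Module.finrank K0 F.toSubmodule + 1)).toSubmodule ≤
      Module.finrank K0 F.toSubmodule := Submodule.finrank_mono (hNF _)
  omega

/-- Residual independence of the powers of an element that is not a `p`-th power. -/
theorem pow_indep (p : ℕ) [hp : Fact p.Prime] {κ : Type*} [Field κ] [CharP κ p] [IsAlgClosed κ]
    {E : Subfield κ} {y : κ} (hyE : y ∈ E) (hy : ∀ x ∈ E, x ^ p ≠ y) (u : Fin p → κ)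
    (hu : ∀ i, u i ∈ E) (h0 : ∑ i, u i ^ p * y ^ (i : ℕ) = 0) (i : Fin p) : u i = 0 := by
  obtain ⟨ζ, hζ⟩ := IsAlgClosed.exists_pow_nat_eq y hp.out.pos
  -- the polynomial with root `ζ`
  let v : Fin p → E := fun i => ⟨u i, hu i⟩
  let P : Polynomial E := ∑ i : Fin p, C (v i) * X ^ (i : ℕ)
  have hirr : Irreducible (X ^ p - C (⟨y, hyE⟩ : E)) := by
    refine X_pow_sub_C_irreducible_of_prime hp.out fun b hb => hy b b.2 ?_
    have := congrArg (fun t : E => (t : κ)) hb
    simpa using this
  have hPζ : aeval ζ P = 0 := by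
    have h1 : (∑ i : Fin p, u i * ζ ^ (i : ℕ)) ^ p = 0 := by
      rw [← h0, sum_pow_char]
      refine Finset.sum_congr rfl fun i _ => ?_
      rw [mul_pow, ← pow_mul, mul_comm (i : ℕ) p, pow_mul, hζ]
    have h2 : (∑ i : Fin p, u i * ζ ^ (i : ℕ)) = 0 := by
      exact pow_eq_zero_iff hp.out.ne_zero |>.1 h1
    rw [map_sum, ← h2]
    refine Finset.sum_congr rfl fun i _ => ?_
    rw [map_mul, map_pow, aeval_C, aeval_X]
    rfl
  have hmin : minpoly E ζ = X ^ p - C (⟨y, hyE⟩ : E) := by
    refine (minpoly.eq_of_irreducible_of_monic hirr ?_ (monic_X_pow_sub_C _ hp.out.ne_zero)).symm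
    rw [map_sub, map_pow, aeval_X, aeval_C, hζ]
    exact sub_self _
  have hP0 : P = 0 := by
    by_contra hne
    have h1 := minpoly.degree_le_of_ne_zero E ζ hne hPζ
    rw [hmin, degree_X_pow_sub_C hp.out.pos] at h1
    have h2 : P.degree < p := by
      refine lt_of_le_of_lt (degree_sum_le _ _) ?_
      refine (Finset.sup_lt_iff (WithBot.bot_lt_coe p)).2 fun i _ => ?_
      exact lt_of_le_of_lt (degree_C_mul_X_pow_le _ _) (Nat.cast_lt.2 i.2)
    exact absurd h1 (not_le.2 h2)
  have h3 : P.coeff (i : ℕ) = v i := by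
    rw [finsetSum_coeff]
    rw [Finset.sum_eq_single i]
    · simp
    · intro j _ hji
      rw [coeff_C_mul_X_pow, if_neg]
      intro h
      exact hji (Fin.ext h.symm)
    · intro h
      exact absurd (Finset.mem_univ i) h
  rw [hP0, coeff_zero] at h3
  have h4 := congrArg (fun t : E => (t : κ)) h3
  exact h4.symm

end Pool.Agent.H91.Tilt
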